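import Pool.Agent.W423.NX.Defs
import Pool.Agent.W578.SI.Scale
import Pool.Agent.W368.SL.L1

set_option autoImplicit false

/-! Diagonal changes of variables. -/

namespace Pool.Agent.W407.NX

open MvPolynomial Pool.Agent.H628R4.TZ Pool.Agent.H628R4.TP
open Pool.Agent.W578.SI (cj cj_apply sc sc_apply sc_mem)

/-- an element of `D[s]` from finitely many terms -/
theorem mkD {ι : Type} {N P : ℕ} (T : Finset ι) (β : ι → (Fin (P+1) →₀ ℕ)) (Q : ι → weyl N) :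
    ∃ D : (Fin (P+1) →₀ ℕ) →₀ weyl N, ∀ (s : Fin (P+1) → ℕ) (g : MvPolynomial (Fin N) ℂ),
      (D.sum fun β Q => (∏ k, (s k : ℂ) ^ β k) •
        (Q : Module.End ℂ (MvPolynomial (Fin N) ℂ)) g) =
      ∑ i ∈ T, (∏ k, (s k : ℂ) ^ β i k) • (Q i : Module.End ℂ (MvPolynomial (Fin N) ℂ)) g := by
  classical
  refine ⟨∑ i ∈ T, Finsupp.single (β i) (Q i), fun s g => ?_⟩
  have h0 : ∀ a : Fin (P+1) →₀ ℕ, (∏ k, (s k : ℂ) ^ a k) •
      (((0 : weyl N) : weyl N) : Module.End ℂ (MvPolynomial (Fin N) ℂ)) g = 0 := by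
    intro a
    rw [ZeroMemClass.coe_zero, LinearMap.zero_apply, smul_zero]
  rw [← Finsupp.sum_finsetSum_index (h := fun (β : Fin (P+1) →₀ ℕ) (Q : weyl N) =>
      (∏ k, (s k : ℂ) ^ β k) • (Q : Module.End ℂ (MvPolynomial (Fin N) ℂ)) g) h0 (by
    intro a b1 b2
    rw [AddMemClass.coe_add, LinearMap.add_apply, smul_add])]
  refine Finset.sum_congr rfl fun i _ => ?_
  exact Finsupp.sum_single_index (h0 _)

theorem cj_smul {N : ℕ} (t : Fin N → ℂ) (ht : ∀ i, t i ≠ 0)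
    (Q : Module.End ℂ (MvPolynomial (Fin N) ℂ)) (z : ℂ) (g : MvPolynomial (Fin N) ℂ) :
    cj (sc t ht) Q (z • sc t ht g) = z • sc t ht (Q g) := by
  rw [map_smul, cj_apply]

theorem scal_eq {N : ℕ} (t : Fin N → ℂ) (ht : ∀ i, t i ≠ 0) (p : MvPolynomial (Fin N) ℂ) :
    Pool.Agent.W423.NX.scal t p = sc t ht p := rfl

theorem taskScale : Pool.Agent.W423.NX.TaskScale := by
  intro N P f G c t hc ht hf b hb
  obtain ⟨D, hD⟩ := hb
  obtain ⟨D', hD'⟩ := mkD (P := P) D.support (fun β => β)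
    (fun β => ((∏ k, c k)⁻¹ : ℂ) • (⟨cj (sc t ht) (D β), sc_mem t ht _ (D β).2⟩ : weyl N))
  refine ⟨1, D', by simp, fun _ => rfl, fun s _ => ?_⟩
  rw [hD', one_mul]
  have hG : ∀ e : Fin (P+1) → ℕ, ∏ k, G k ^ e k =
      (∏ k, c k ^ e k) • sc t ht (∏ k, f k ^ e k) := by
    intro e
    rw [map_prod, ← C_mul', map_prod, ← Finset.prod_mul_distrib]
    refine Finset.prod_congr rfl fun k _ => ?_
    rw [← hf k, scal_eq t ht, mul_pow, map_pow, map_pow]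
  have h1 := congrArg (sc t ht) (hD s)
  rw [map_mul, Finsupp.sum, map_sum] at h1
  have hC : sc t ht (C (eval (fun i => (s i : ℂ)) b)) = C (eval (fun i => (s i : ℂ)) b) :=
    (sc t ht).commutes _
  rw [hC] at h1
  rw [hG s, mul_smul_comm, h1, Finset.smul_sum]
  refine Finset.sum_congr rfl fun β _ => ?_
  have h3 : (((((∏ k, c k)⁻¹ : ℂ) • (⟨cj (sc t ht) (D β), sc_mem t ht _ (D β).2⟩ : weyl N) :
      weyl N)) : Module.End ℂ (MvPolynomial (Fin N) ℂ)) =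
      (∏ k, c k)⁻¹ • cj (sc t ht) (D β : Module.End ℂ (MvPolynomial (Fin N) ℂ)) := rfl
  rw [h3, hG (fun k => s k + 1), LinearMap.smul_apply, cj_smul, map_smul, smul_smul,
    smul_smul, smul_smul]
  congr 1
  have hp : (∏ k, c k) ≠ 0 := Finset.prod_ne_zero_iff.2 fun k _ => hc k
  have h4 : ∏ k, c k ^ (s k + 1) = (∏ k, c k ^ s k) * ∏ k, c k := by
    rw [← Finset.prod_mul_distrib]
    exact Finset.prod_congr rfl fun k _ => pow_succ _ _
  rw [h4]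
  field_simp

/-- from one function to a product -/
theorem fromU {N P : ℕ} (f : MvPolynomial (Fin N) ℂ)
    (G : Fin (P+1) → MvPolynomial (Fin N) ℂ) (m : Fin (P+1) → ℕ) (c : ℂ) (t : Fin N → ℂ)
    (hm : ∀ k, 1 ≤ m k) (hc : c ≠ 0) (ht : ∀ l, t l ≠ 0)
    (hf : C c * Pool.Agent.W423.NX.scal t f = ∏ k, G k ^ m k) (b : Polynomial ℂ)
    (a : MvPolynomial (Fin N) ℂ) (Q : ℕ →₀ weylS (Fin N))
    (hQ : ∀ s : ℕ, C (b.eval (s : ℂ)) * a * f ^ s =
      Q.sum fun m Q => ((s : ℂ) ^ m) • (Q : Module.End ℂ (MvPolynomial (Fin N) ℂ)) (f ^ (s + 1)))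
    (bs : (Fin (P+1) → ℕ) → ℂ) (hbs : ∀ n : ℕ, bs (fun k => m k * n) = b.eval (n : ℂ)) :
    ∃ D : (Fin (P+1) →₀ ℕ) →₀ weyl N, ∀ s ∈ {s | ∃ n : ℕ, s = fun k => m k * n},
      C (bs s) * (sc t ht a * ∏ k, G k ^ s k) =
        D.sum fun β Q => (∏ k, (s k : ℂ) ^ β k) •
          (Q : Module.End ℂ (MvPolynomial (Fin N) ℂ)) (∏ k, G k ^ (s k + m k)) := by
  obtain ⟨D', hD'⟩ := mkD (P := P) Q.support (fun j => Finsupp.single 0 j)
    (fun j => (((m 0 : ℂ) ^ j)⁻¹ * c⁻¹ : ℂ) •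
      (⟨cj (sc t ht) (Q j), sc_mem t ht _ (Q j).2⟩ : weyl N))
  refine ⟨D', ?_⟩
  rintro s ⟨n, rfl⟩
  rw [hD', hbs]
  have hm0 : (m 0 : ℂ) ≠ 0 := by
    have := hm 0
    exact_mod_cast (by omega : m 0 ≠ 0)
  have hG1 : ∏ k, G k ^ (m k * n) = (c ^ n) • sc t ht (f ^ n) := by
    rw [← C_mul', map_pow, map_pow, ← mul_pow, ← scal_eq t ht, hf, ← Finset.prod_pow]
    exact Finset.prod_congr rfl fun k _ => pow_mul _ _ _
  have hG2 : ∏ k, G k ^ (m k * n + m k) = (c ^ (n + 1)) • sc t ht (f ^ (n + 1)) := by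
    rw [← C_mul', map_pow, map_pow, ← mul_pow, ← scal_eq t ht, hf, ← Finset.prod_pow]
    refine Finset.prod_congr rfl fun k _ => ?_
    rw [← pow_mul]
    congr 1
  have h1 := congrArg (sc t ht) (hQ n)
  rw [map_mul, map_mul, Finsupp.sum, map_sum] at h1
  have hC : sc t ht (C (b.eval (n : ℂ))) = C (b.eval (n : ℂ)) := (sc t ht).commutes _
  rw [hC] at h1
  rw [hG1, mul_smul_comm, mul_smul_comm, ← mul_assoc, h1, Finset.smul_sum]
  refine Finset.sum_congr rfl fun j _ => ?_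
  have h3 : (((((m 0 : ℂ) ^ j)⁻¹ * c⁻¹ : ℂ) •
      (⟨cj (sc t ht) (Q j), sc_mem t ht _ (Q j).2⟩ : weyl N) : weyl N) :
      Module.End ℂ (MvPolynomial (Fin N) ℂ)) =
      (((m 0 : ℂ) ^ j)⁻¹ * c⁻¹) • cj (sc t ht) (Q j : Module.End ℂ (MvPolynomial (Fin N) ℂ)) :=
    rfl
  have h5 : ∏ k, (((fun k => m k * n) k : ℕ) : ℂ) ^ (Finsupp.single (0 : Fin (P+1)) j) k =
      ((m 0 : ℂ) * n) ^ j := by
    rw [Finset.prod_eq_single 0]
    · rw [Finsupp.single_eq_same]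
      push_cast
      rfl
    · intro k _ hk
      rw [Finsupp.single_eq_of_ne hk, pow_zero]
    · intro h
      exact absurd (Finset.mem_univ _) h
  rw [h3, h5, hG2, LinearMap.smul_apply, cj_smul, map_smul, smul_smul, smul_smul,
    smul_smul]
  congr 1
  rw [mul_pow, pow_succ]
  field_simp

theorem taskFromB : Pool.Agent.W423.NX.TaskFromB := by
  intro N P f G m c t hm hc ht hf b hb bs hbs
  obtain ⟨Q, hQ⟩ := hb
  obtain ⟨D, hD⟩ := fromU f G m c t hm hc ht hf b 1 Q (fun s => by rw [mul_one]; exact hQ s) bs hbs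
  rw [map_one] at hD
  exact ⟨1, D, by simp, fun _ => rfl, hD⟩

theorem cc_sc {N : ℕ} (t : Fin N → ℂ) (ht : ∀ i, t i ≠ 0) (p : MvPolynomial (Fin N) ℂ) :
    constantCoeff (sc t ht p) = constantCoeff p := by
  rw [sc_apply]
  induction p using MvPolynomial.induction_on with
  | C a => simp
  | add p q hp hq => rw [map_add, map_add, map_add, hp, hq]
  | mul_X p j hp => simp

theorem taskFromL : Pool.Agent.W423.NX.TaskFromL := by
  intro N P f G m c t hm hc ht hf hf0 hfc b hb bs hbs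
  obtain ⟨_, a, Q, ha, hQ⟩ := Pool.Agent.W368.SL.taskL1 f b hf0 hfc hb
  obtain ⟨D, hD⟩ := fromU f G m c t hm hc ht hf b a Q hQ bs hbs
  exact ⟨sc t ht a, D, by rw [cc_sc, ha], fun h => absurd trivial h, hD⟩

end Pool.Agent.W407.NX
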